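import Pool.Agent.Q53.TS.Res

/-!
# Generating sets of linear growth with a prescribed transition set

For every `r ≥ 2` and every finite set `W` of positive integers there is a generating set `A`
with `S_A(r) = W ∪ (-W)` which contains all positive multiples of some `m ≥ 1`.  Hence the fastest
possible growth is linear, and `θ(r, W) = 1`.

Construction.  By counting in `ZMod (b ^ (r-1))` (digits, multiplied by a unit) there are `m` and a
symmetric set of residue classes modulo `m`, containing the class of `0`, such that every residue is a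
sum of `r - 1` of them but no `w ∈ W` is a sum of `r - 2` of them.  `A` consists of all positive multiples of `m`
and of the absolute values of the members of a sparse set, which is constructed greedily, of huge elements of these
classes: each `n ∉ W ∪ (-W)` is a sum of `r - 1` of them.
-/

set_option autoImplicit false

open Finset Filter Pool.Agent.Q53.TS

namespace Pool.Agent.Results.MP_7aef23_nt.LinearGrowth

/-- `x` is a sum of `k` elements of `A ∪ (-A)` (repetitions allowed) -/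
def IsSum (A : Set ℕ) (k : ℕ) (x : ℤ) : Prop :=
  ∃ f : Fin k → ℤ, (∀ i, ∃ a ∈ A, f i = a ∨ f i = -a) ∧ ∑ i, f i = x

/-- the word length `ℓ_A(x)`: the least `k` such that `x` is a sum of `k` elements of `A ∪ (-A)`, and
`∞` if there is none -/
noncomputable def wordLength (A : Set ℕ) (x : ℤ) : ℕ∞ := sInf {k : ℕ∞ | ∃ j : ℕ, k = j ∧ IsSum A j x}

/-- the set `S_A(r)` of the integers of word length `r` -/
def sphere (A : Set ℕ) (r : ℕ) : Set ℤ := {x : ℤ | wordLength A x = r}

/-- the family `𝒜(r, W)`: the sets `A` of positive integers which generate `ℤ` with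
`S_A(r) = W ∪ (-W)` -/
def family (r : ℕ) (W : Set ℕ) : Set (Set ℕ) :=
  {A : Set ℕ | (∀ a ∈ A, 0 < a) ∧ (∀ x : ℤ, wordLength A x < ⊤) ∧
    sphere A r = {x : ℤ | ∃ w ∈ W, x = w ∨ x = -w}}

/-- the counting function `A(t)` -/
noncomputable def count (A : Set ℕ) (t : ℝ) : ℕ := {a : ℕ | a ∈ A ∧ (a : ℝ) ≤ t}.ncard

/-- the exponent `θ(r, W)` (`sSup ∅ = 0` in `ℝ`) -/
noncomputable def theta (r : ℕ) (W : Set ℕ) : ℝ :=
  sSup {θ : ℝ | 0 < θ ∧ ∃ A ∈ family r W, ∃ c : ℝ, 0 < c ∧ ∀ᶠ t : ℝ in atTop, c * t ^ θ ≤ (count A t : ℝ)}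

/-! ### lists -/

theorem isSum_of_list {A : Set ℕ} : ∀ l : List ℤ, (∀ x ∈ l, x.natAbs ∈ A) → IsSum A l.length l.sum := by
  intro l hl
  refine ⟨fun i => l.get i, ?_, ?_⟩
  · intro i
    refine ⟨(l.get i).natAbs, hl _ (List.get_mem l i), ?_⟩
    exact Int.natAbs_eq _
  · rw [← List.sum_ofFn]
    simp

theorem list_of_isSum {A : Set ℕ} {k : ℕ} {x : ℤ} (h : IsSum A k x) :
    ∃ l : List ℤ, l.length = k ∧ (∀ y ∈ l, y.natAbs ∈ A) ∧ l.sum = x := by
  obtain ⟨f, h1, h2⟩ := h
  refine ⟨List.ofFn f, by simp, ?_, by rw [List.sum_ofFn, h2]⟩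
  intro y hy
  rw [List.mem_ofFn] at hy
  obtain ⟨i, rfl⟩ := hy
  obtain ⟨a, ha, h3 | h3⟩ := h1 i
  · rw [h3]; simpa using ha
  · rw [h3]; simpa using ha

/-- the zeros can be dropped -/
theorem drop_zeros (B : Set ℤ) : ∀ l : List ℤ, (∀ x ∈ l, x ∈ B) → ∃ l' : List ℤ, l'.length ≤ l.length ∧
    (∀ x ∈ l', x ∈ B ∧ x ≠ 0) ∧ l'.sum = l.sum := by
  intro l
  induction l with
  | nil => intro _; exact ⟨[], le_rfl, by simp, rfl⟩
  | cons a l ih =>
    intro h
    obtain ⟨l', h1, h2, h3⟩ := ih fun x hx => h x (List.mem_cons_of_mem _ hx)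
    by_cases ha : a = 0
    · exact ⟨l', by rw [List.length_cons]; omega, h2, by rw [List.sum_cons, ha, zero_add, h3]⟩
    · refine ⟨a :: l', by simp [h1], ?_, by rw [List.sum_cons, List.sum_cons, h3]⟩
      intro x hx
      rw [List.mem_cons] at hx
      rcases hx with rfl | hx
      · exact ⟨h _ List.mem_cons_self, ha⟩
      · exact h2 x hx

theorem wordLength_le {A : Set ℕ} {k : ℕ} {x : ℤ} (h : IsSum A k x) : wordLength A x ≤ k :=
  sInf_le ⟨k, rfl, h⟩

theorem wordLength_ge {A : Set ℕ} {k : ℕ} {x : ℤ} (h : ∀ j < k, ¬ IsSum A j x) : (k : ℕ∞) ≤ wordLength A x := by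
  apply le_sInf
  rintro _ ⟨j, rfl, hj⟩
  by_contra hcon
  push Not at hcon
  exact h j (by exact_mod_cast hcon) hj

/-- the main construction -/
theorem main (r : ℕ) (hr : 2 ≤ r) (W : Finset ℕ) (hW : ∀ w ∈ W, 0 < w) :
    ∃ m : ℕ, 0 < m ∧ ∃ A ∈ family r W, ∀ n : ℕ, 0 < n → m ∣ n → n ∈ A := by
  classical
  obtain ⟨D, rfl⟩ : ∃ D, r = D + 1 := ⟨r - 1, by omega⟩
  have hD : 1 ≤ D := by omega
  set W' : Finset ℤ := W.image (fun w : ℕ => (w : ℤ)) ∪ W.image (fun w : ℕ => -(w : ℤ)) with hW'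
  have mW : ∀ x : ℤ, x ∈ W' ↔ ∃ w ∈ W, x = w ∨ x = -w := by
    intro x
    rw [hW', mem_union, mem_image, mem_image]
    constructor
    · rintro (⟨w, hw, rfl⟩ | ⟨w, hw, rfl⟩)
      · exact ⟨w, hw, Or.inl rfl⟩
      · exact ⟨w, hw, Or.inr rfl⟩
    · rintro ⟨w, hw, rfl | rfl⟩
      · exact Or.inl ⟨w, hw, rfl⟩
      · exact Or.inr ⟨w, hw, rfl⟩
  have h0 : (0 : ℤ) ∉ W' := by
    rw [mW]
    rintro ⟨w, hw, h | h⟩
    · have := hW w hw
      omega
    · have := hW w hw
      omega
  have hneg : ∀ w ∈ W', -w ∈ W' := by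
    intro x hx
    rw [mW] at hx ⊢
    obtain ⟨w, hw, rfl | rfl⟩ := hx
    · exact ⟨w, hw, Or.inr rfl⟩
    · exact ⟨w, hw, Or.inl (neg_neg _)⟩
  obtain ⟨m, R, hR, hR0, hcov, hno⟩ := classes D hD W' h0
  obtain ⟨B, hB1, hB2, hB3⟩ := construct hR hD hcov hneg h0
  have hm := hR.pos
  -- the symmetric set
  set B' : Set ℤ := B ∪ {x : ℤ | (m : ℤ) ∣ x} with hB'
  have hB'neg : ∀ x ∈ B', -x ∈ B' := by
    rintro x (hx | hx)
    · exact Or.inl (hB1 x hx).2
    · exact Or.inr (Int.dvd_neg.2 hx)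
  have hB'R : ∀ x ∈ B', x ∈ R := by
    rintro x (hx | ⟨q, hq⟩)
    · exact (hB1 x hx).1
    · have := hR.per' hR0 q
      rw [zero_add] at this
      rwa [hq, mul_comm]
  set A : Set ℕ := {a : ℕ | 0 < a ∧ (a : ℤ) ∈ B'} with hA
  have mA : ∀ x : ℤ, x.natAbs ∈ A ↔ x ∈ B' ∧ x ≠ 0 := by
    intro x
    rw [hA]
    show 0 < x.natAbs ∧ ((x.natAbs : ℕ) : ℤ) ∈ B' ↔ _
    rw [Int.natAbs_pos]
    constructor
    · rintro ⟨h1, h2⟩
      refine ⟨?_, h1⟩
      rcases Int.natAbs_eq x with h | h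
      · rw [h]; exact h2
      · rw [h]; exact hB'neg _ h2
    · rintro ⟨h1, h2⟩
      refine ⟨h2, ?_⟩
      rcases Int.natAbs_eq x with h | h
      · rwa [h] at h1
      · have := hB'neg _ h1
        rw [h, neg_neg] at this
        exact this
  -- the elements of `W'` are not sums of at most `D` elements
  have key : ∀ w ∈ W', ∀ k ≤ D, ¬ IsSum A k w := by
    intro w hw k hk hs
    obtain ⟨l, h1, h2, h3⟩ := list_of_isSum hs
    by_cases hex : ∃ x ∈ l, (m : ℤ) ∣ x
    · obtain ⟨x, hx, hdx⟩ := hex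
      have h4 := List.perm_cons_erase hx
      have h5 : l.sum = x + (l.erase x).sum := by
        rw [h4.sum_eq, List.sum_cons]
      have h6 : l.length = (l.erase x).length + 1 := by
        rw [h4.length_eq, List.length_cons]
      refine hno w hw (l.erase x) (by omega) ?_ ?_
      · intro y hy
        exact hB'R y ((mA y).1 (h2 y (List.mem_of_mem_erase hy))).1
      · have h7 : w - (l.erase x).sum = x := by rw [← h3, h5]; ring
        rw [h7]
        exact hdx
    · push Not at hex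
      apply hB2 w ⟨l, by omega, ?_, h3⟩ hw
      intro x hx
      rcases ((mA x).1 (h2 x hx)).1 with h | h
      · exact h
      · exact absurd h (hex x hx)
  -- the other integers are
  have rep : ∀ n : ℤ, n ∉ W' → ∃ k ≤ D, IsSum A k n := by
    intro n hn
    obtain ⟨l, h1, h2, h3⟩ := hB3 n hn
    obtain ⟨l', h4, h5, h6⟩ := drop_zeros B' l fun x hx => Or.inl (h2 x hx)
    refine ⟨l'.length, by omega, ?_⟩
    rw [← h3, ← h6]
    apply isSum_of_list
    intro x hx
    exact (mA x).2 (h5 x hx)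
  have repW : ∀ w ∈ W', IsSum A (D + 1) w := by
    intro w hw
    -- a multiple of `m` larger than all elements
    obtain ⟨q, hq⟩ : ∃ q : ℤ, 0 < q ∧ w - q * m ∉ W' := by
      set M : ℤ := ∑ x ∈ W', |x| with hM
      have hMw : ∀ x ∈ W', |x| ≤ M := fun x hx =>
        single_le_sum (f := fun x : ℤ => |x|) (fun i _ => abs_nonneg i) hx
      have hM0 : 0 ≤ M := (abs_nonneg w).trans (hMw w hw)
      refine ⟨2 * M + 1, by omega, fun h => ?_⟩
      have h1 := hMw _ h
      have h2 := hMw w hw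
      have h3 : (1 : ℤ) ≤ m := by exact_mod_cast hm
      have h4 := abs_le.1 h1
      have h5 := abs_le.1 h2
      nlinarith
    obtain ⟨k, hk, hs⟩ := rep _ hq.2
    obtain ⟨l, h1, h2, h3⟩ := list_of_isSum hs
    have h4 : IsSum A (k + 1) w := by
      have h5 := isSum_of_list (A := A) ((q * m) :: l) (by
        intro x hx
        rw [List.mem_cons] at hx
        rcases hx with rfl | hx
        · rw [mA]
          refine ⟨Or.inr (Dvd.intro_left _ rfl), ?_⟩
          have : (0 : ℤ) < m := by exact_mod_cast hm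
          exact (mul_pos hq.1 this).ne'
        · exact h2 x hx)
      rw [List.length_cons, List.sum_cons, h1, h3] at h5
      have e : q * m + (w - q * m) = w := by ring
      rwa [e] at h5
    have h6 : k = D := by
      by_contra hne
      exact key w hw (k + 1) (by omega) h4
    rwa [h6] at h4
  refine ⟨m, hm, A, ⟨fun a ha => ha.1, ?_, ?_⟩, ?_⟩
  · intro x
    by_cases hx : x ∈ W'
    · exact lt_of_le_of_lt (wordLength_le (repW x hx)) (ENat.natCast_lt_top _)
    · obtain ⟨k, _, hk⟩ := rep x hx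
      exact lt_of_le_of_lt (wordLength_le hk) (ENat.natCast_lt_top _)
  · ext x
    show wordLength A x = ((D + 1 : ℕ) : ℕ∞) ↔ ∃ w ∈ (W : Set ℕ), x = w ∨ x = -w
    have e1 : (∃ w ∈ (W : Set ℕ), x = w ∨ x = -w) ↔ x ∈ W' := by
      rw [mW]
      simp only [mem_coe]
    rw [e1]
    constructor
    · intro h
      by_contra hx
      obtain ⟨k, hkD, hk⟩ := rep x hx
      have h1 := wordLength_le hk
      rw [h] at h1
      have h2 : D + 1 ≤ k := by exact_mod_cast h1
      omega
    · intro h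
      apply le_antisymm (wordLength_le (repW x h))
      apply wordLength_ge
      intro j hj
      exact key x h j (by omega)
  · intro n hn hmn
    exact ⟨hn, Or.inr (Int.natCast_dvd_natCast.2 hmn)⟩

theorem count_le (A : Set ℕ) (hA : ∀ a ∈ A, 0 < a) (t : ℝ) (ht : 0 ≤ t) : (count A t : ℝ) ≤ t := by
  unfold count
  have h1 : {a : ℕ | a ∈ A ∧ (a : ℝ) ≤ t} ⊆ (Finset.Icc 1 ⌊t⌋₊ : Finset ℕ) := by
    rintro a ⟨h2, h3⟩
    rw [mem_coe, mem_Icc]
    exact ⟨hA a h2, Nat.le_floor h3⟩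
  have h2 := Set.ncard_le_ncard h1 (Finset.finite_toSet _)
  rw [Set.ncard_coe_finset, Nat.card_Icc, Nat.add_sub_cancel] at h2
  calc _ ≤ ((⌊t⌋₊ : ℕ) : ℝ) := by exact_mod_cast h2
    _ ≤ t := Nat.floor_le ht

theorem count_ge (A : Set ℕ) (m : ℕ) (hm : 0 < m) (h : ∀ n : ℕ, 0 < n → m ∣ n → n ∈ A) (t : ℝ) :
    ⌊t / m⌋₊ ≤ count A t := by
  unfold count
  have hm' : (0 : ℝ) < m := by exact_mod_cast hm
  have hfin : {a : ℕ | a ∈ A ∧ (a : ℝ) ≤ t}.Finite := by
    apply (Set.finite_Iic ⌊t⌋₊).subset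
    rintro a ⟨_, h3⟩
    exact Nat.le_floor h3
  have h1 : ((Finset.Icc 1 ⌊t / m⌋₊).image (fun q => q * m) : Finset ℕ) ⊆
      hfin.toFinset := by
    intro a ha
    rw [mem_image] at ha
    obtain ⟨q, hq, rfl⟩ := ha
    rw [mem_Icc] at hq
    rw [Set.Finite.mem_toFinset]
    refine ⟨h _ (Nat.mul_pos hq.1 hm) (Nat.dvd_mul_left _ _), ?_⟩
    have h2 : (q : ℝ) ≤ t / m := by
      have h3 : 0 < ⌊t / m⌋₊ := by omega
      exact (Nat.le_floor_iff' (by omega)).1 hq.2
    rw [le_div_iff₀ hm'] at h2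
    exact_mod_cast h2
  have h2 := card_le_card h1
  rw [card_image_of_injective _ (fun a b hab => Nat.eq_of_mul_eq_mul_right hm hab), Nat.card_Icc,
    Nat.add_sub_cancel] at h2
  rwa [Set.ncard_eq_toFinset_card _ hfin]

/-- For all `r ≥ 2` and every finite set `W` of positive integers there are `m ≥ 1` and a set
`A` of positive integers which generates `ℤ`, with `S_A(r) = W ∪ (-W)`, which contains all positive
multiples of `m`; so `⌊t / m⌋ ≤ A(t) ≤ t` for `t ≥ 0`, and `θ(r, W) = 1`. -/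
theorem result (r : ℕ) (hr : 2 ≤ r) (W : Finset ℕ) (hW0 : ∀ w ∈ W, 0 < w) :
    (∃ m : ℕ, 0 < m ∧ ∃ A ∈ family r W, (∀ n : ℕ, 0 < n → m ∣ n → n ∈ A) ∧
      ∀ t : ℝ, 0 ≤ t → ⌊t / m⌋₊ ≤ count A t ∧ (count A t : ℝ) ≤ t) ∧
    theta r W = 1 := by
  obtain ⟨m, hm, A, hA, h⟩ := main r hr W hW0
  have hm' : (0 : ℝ) < m := by exact_mod_cast hm
  refine ⟨⟨m, hm, A, hA, h, fun t ht => ⟨count_ge A m hm h t, count_le A hA.1 t ht⟩⟩, ?_⟩
  unfold theta
  apply le_antisymm
  · apply csSup_le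
    · refine ⟨1, one_pos, A, hA, 1 / (2 * m), by positivity, ?_⟩
      filter_upwards [eventually_ge_atTop (2 * m : ℝ)] with t ht
      rw [Real.rpow_one]
      have h1 := count_ge A m hm h t
      have h2 := Nat.lt_floor_add_one (t / m)
      have h3 : ((⌊t / m⌋₊ : ℕ) : ℝ) ≤ count A t := by exact_mod_cast h1
      have h4 : 2 ≤ t / m := by rw [le_div_iff₀ hm']; linarith
      have h5 : 1 / (2 * (m : ℝ)) * t = (t / m) / 2 := by field_simp
      rw [h5]
      linarith
    · rintro θ ⟨hθ, A', hA', c, hc, hev⟩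
      by_contra hcon
      push Not at hcon
      have h1 : Tendsto (fun t : ℝ => t ^ (θ - 1)) atTop atTop := tendsto_rpow_atTop (by linarith)
      have h2 := h1.eventually (eventually_gt_atTop (1 / c))
      obtain ⟨t, ht1, ht2, ht3⟩ := (hev.and (h2.and (eventually_gt_atTop (0 : ℝ)))).exists
      have h3 := count_le A' hA'.1 t ht3.le
      have h4 : t ^ θ = t ^ (θ - 1) * t := by
        rw [← Real.rpow_add_one ht3.ne']
        congr 1
        ring
      have h5 : 1 < c * t ^ (θ - 1) := by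
        rw [div_lt_iff₀ hc] at ht2
        linarith
      have h6 : t < c * t ^ θ := by
        rw [h4, ← mul_assoc]
        nlinarith
      linarith
  · apply le_csSup
    · refine ⟨1, ?_⟩
      rintro θ ⟨hθ, A', hA', c, hc, hev⟩
      by_contra hcon
      push Not at hcon
      have h1 : Tendsto (fun t : ℝ => t ^ (θ - 1)) atTop atTop := tendsto_rpow_atTop (by linarith)
      have h2 := h1.eventually (eventually_gt_atTop (1 / c))
      obtain ⟨t, ht1, ht2, ht3⟩ := (hev.and (h2.and (eventually_gt_atTop (0 : ℝ)))).exists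
      have h3 := count_le A' hA'.1 t ht3.le
      have h4 : t ^ θ = t ^ (θ - 1) * t := by
        rw [← Real.rpow_add_one ht3.ne']
        congr 1
        ring
      have h5 : 1 < c * t ^ (θ - 1) := by
        rw [div_lt_iff₀ hc] at ht2
        linarith
      have h6 : t < c * t ^ θ := by
        rw [h4, ← mul_assoc]
        nlinarith
      linarith
    · refine ⟨one_pos, A, hA, 1 / (2 * m), by positivity, ?_⟩
      filter_upwards [eventually_ge_atTop (2 * m : ℝ)] with t ht
      rw [Real.rpow_one]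
      have h1 := count_ge A m hm h t
      have h2 := Nat.lt_floor_add_one (t / m)
      have h3 : ((⌊t / m⌋₊ : ℕ) : ℝ) ≤ count A t := by exact_mod_cast h1
      have h4 : 2 ≤ t / m := by rw [le_div_iff₀ hm']; linarith
      have h5 : 1 / (2 * (m : ℝ)) * t = (t / m) / 2 := by field_simp
      rw [h5]
      linarith

end Pool.Agent.Results.MP_7aef23_nt.LinearGrowth
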